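import Pool.Agent.HypFI.Guess

/-!
# Finite index subgroups of hyperbolic groups are hyperbolic
-/

set_option autoImplicit false

namespace Pool.Agent.HypFI

/-- the word metric -/
noncomputable def wordDist {G : Type*} [Group G] (S : Set G) (g h : G) : ℕ :=
  sInf {n : ℕ | ∃ l : List G, l.length = n ∧ (∀ s ∈ l, s ∈ S ∨ s⁻¹ ∈ S) ∧ l.prod = g⁻¹ * h}

/-- the group `G` is hyperbolic: it has a finite generating set whose word metric satisfies the
four-point condition -/
def HypGroup (G : Type*) [Group G] : Prop :=
  ∃ (S : Finset G) (d : G → G → ℕ) (δ : ℕ),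
      Subgroup.closure (S : Set G) = ⊤ ∧
      (∀ g h : G, d g h = sInf {n : ℕ | ∃ l : List G, l.length = n ∧
          (∀ s ∈ l, s ∈ S ∨ s⁻¹ ∈ S) ∧ l.prod = g⁻¹ * h}) ∧
      (∀ x y z w : G,
        min ((d x w : ℤ) + (d y w : ℤ) - (d x y : ℤ))
            ((d y w : ℤ) + (d z w : ℤ) - (d y z : ℤ)) - 2 * (δ : ℤ)
          ≤ (d x w : ℤ) + (d z w : ℤ) - (d x z : ℤ))

section

variable {G : Type*} [Group G] {S : Set G}

theorem wordDist_le {g h : G} {l : List G} (hl : ∀ s ∈ l, s ∈ S ∨ s⁻¹ ∈ S)
    (hp : l.prod = g⁻¹ * h) : wordDist S g h ≤ l.length :=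
  Nat.sInf_le ⟨l, rfl, hl, hp⟩

theorem exists_word (hS : Subgroup.closure S = ⊤) (g h : G) :
    ∃ l : List G, l.length = wordDist S g h ∧ (∀ s ∈ l, s ∈ S ∨ s⁻¹ ∈ S) ∧ l.prod = g⁻¹ * h := by
  have hne : {n : ℕ | ∃ l : List G, l.length = n ∧ (∀ s ∈ l, s ∈ S ∨ s⁻¹ ∈ S) ∧
      l.prod = g⁻¹ * h}.Nonempty := by
    have h1 : g⁻¹ * h ∈ Subgroup.closure S := by rw [hS]; exact Subgroup.mem_top _
    rw [← Subgroup.mem_toSubmonoid, Subgroup.closure_toSubmonoid] at h1
    obtain ⟨l, hl, hp⟩ := Submonoid.exists_list_of_mem_closure h1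
    exact ⟨l.length, l, rfl, fun s hs => hl s hs, hp⟩
  exact Nat.sInf_mem hne

theorem pathMetric_wordDist (hS : Subgroup.closure S = ⊤) : PathMetric (wordDist S) := by
  have hself : ∀ x : G, wordDist S x x = 0 := by
    intro x
    have := wordDist_le (S := S) (g := x) (h := x) (l := []) (by simp) (by simp)
    simpa using this
  have htri : ∀ x y z : G, wordDist S x z ≤ wordDist S x y + wordDist S y z := by
    intro x y z
    obtain ⟨l, hl, hl1, hl2⟩ := exists_word hS x y
    obtain ⟨l', hl', hl1', hl2'⟩ := exists_word hS y z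
    have := wordDist_le (S := S) (g := x) (h := z) (l := l ++ l') (by
      intro s hs
      rcases List.mem_append.1 hs with h | h
      · exact hl1 s h
      · exact hl1' s h) (by rw [List.prod_append, hl2, hl2']; group)
    rw [List.length_append, hl, hl'] at this
    exact this
  have hsymm' : ∀ x y : G, wordDist S x y ≤ wordDist S y x := by
    intro x y
    obtain ⟨l, hl, hl1, hl2⟩ := exists_word hS y x
    have := wordDist_le (S := S) (g := x) (h := y) (l := (l.map (·⁻¹)).reverse) (by
      intro s hs
      rw [List.mem_reverse, List.mem_map] at hs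
      obtain ⟨t, ht, rfl⟩ := hs
      rw [inv_inv]
      exact (hl1 t ht).symm) (by rw [← List.prod_inv_reverse, hl2]; group)
    rw [List.length_reverse, List.length_map, hl] at this
    exact this
  refine ⟨hself, fun x y => le_antisymm (hsymm' x y) (hsymm' y x), htri, ?_⟩
  intro x y
  obtain ⟨l, hl, hl1, hl2⟩ := exists_word hS x y
  set γ : ℕ → G := fun i => x * (l.take i).prod with hγ
  have h0 : γ 0 = x := by simp [hγ]
  have hN : γ (wordDist S x y) = y := by
    simp only [hγ]
    rw [← hl, List.take_length, hl2]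
    group
  have hle : ∀ i j, i ≤ j → j ≤ wordDist S x y → wordDist S (γ i) (γ j) ≤ j - i := by
    intro i j hij hj
    have hlen : ((l.take j).drop i).length ≤ j - i := by
      rw [List.length_drop, List.length_take]
      omega
    refine le_trans (wordDist_le (S := S) (l := (l.take j).drop i) (fun s hs => ?_) ?_) hlen
    · exact hl1 s (List.mem_of_mem_take (List.mem_of_mem_drop hs))
    · simp only [hγ]
      have h1 : (l.take i).prod * ((l.take j).drop i).prod = (l.take j).prod := by
        have h2 : l.take i = (l.take j).take i := by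
          rw [List.take_take, min_eq_left hij]
        rw [h2, ← List.prod_append, List.take_append_drop]
      rw [mul_inv_rev, ← h1]
      group
  refine ⟨γ, h0, hN, fun i j hij hj => le_antisymm (hle i j hij hj) ?_⟩
  have h1 := hle 0 i (Nat.zero_le _) (by omega)
  have h2 := hle j (wordDist S x y) hj le_rfl
  rw [h0] at h1
  rw [hN] at h2
  have h3 := htri x (γ i) y
  have h4 := htri (γ i) (γ j) y
  omega

theorem eq_of_wordDist_zero (hS : Subgroup.closure S = ⊤) {g h : G} (h0 : wordDist S g h = 0) :
    g = h := by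
  obtain ⟨l, hl, hl1, hl2⟩ := exists_word hS g h
  rw [h0, List.length_eq_zero_iff] at hl
  rw [hl, List.prod_nil] at hl2
  exact (inv_mul_eq_one.1 hl2.symm)

theorem mem_of_wordDist_one (hS : Subgroup.closure S = ⊤) {g h : G} (h0 : wordDist S g h = 1) :
    g⁻¹ * h ∈ S ∨ (g⁻¹ * h)⁻¹ ∈ S := by
  obtain ⟨l, hl, hl1, hl2⟩ := exists_word hS g h
  rw [h0, List.length_eq_one_iff] at hl
  obtain ⟨a, rfl⟩ := hl
  rw [List.prod_singleton] at hl2
  rw [← hl2]
  exact hl1 a (by simp)

theorem wordDist_mul_left (k g h : G) : wordDist S (k * g) (k * h) = wordDist S g h := by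
  unfold wordDist
  have : (k * g)⁻¹ * (k * h) = g⁻¹ * h := by group
  rw [this]

/-- balls are finite -/
theorem finite_ball (hfin : S.Finite) (hS : Subgroup.closure S = ⊤) (n : ℕ) :
    {g : G | wordDist S 1 g ≤ n}.Finite := by
  induction n with
  | zero =>
    refine (Set.finite_singleton (1 : G)).subset ?_
    intro g hg
    have : wordDist S 1 g = 0 := Nat.le_zero.1 hg
    exact (eq_of_wordDist_zero hS this).symm
  | succ n ih =>
    have hSS : (S ∪ S⁻¹ ∪ {1}).Finite := (hfin.union hfin.inv).union (Set.finite_singleton _)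
    refine (ih.mul hSS).subset ?_
    intro g hg
    have hd := pathMetric_wordDist hS
    rcases Nat.lt_or_ge (wordDist S 1 g) (n + 1) with h | h
    · exact Set.mem_mul.2 ⟨g, Nat.lt_succ_iff.1 h, 1, by simp, by simp⟩
    · have h1 : wordDist S 1 g = n + 1 := le_antisymm hg h
      obtain ⟨γ, h0, hN, hγ⟩ := hd.geod 1 g
      rw [h1] at hN hγ
      have h2 := hγ 0 n (Nat.zero_le _) (by omega)
      have h3 := hγ n (n + 1) (by omega) le_rfl
      rw [h0] at h2
      rw [hN] at h3
      have h4 := mem_of_wordDist_one hS (by omega : wordDist S (γ n) g = 1)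
      refine Set.mem_mul.2 ⟨γ n, ?_, (γ n)⁻¹ * g, ?_, by group⟩
      · show wordDist S 1 (γ n) ≤ n
        omega
      · rcases h4 with h4 | h4
        · exact Or.inl (Or.inl h4)
        · exact Or.inl (Or.inr (Set.mem_inv.2 h4))

end

/-- **Finite index subgroups of hyperbolic groups are hyperbolic.** -/
theorem hypGroup_finiteIndex {W : Type*} [Group W] (T : Finset W)
    (hT : Subgroup.closure (T : Set W) = ⊤) (δ : ℕ) (hδ : FourPt (wordDist (T : Set W)) δ)
    (G : Subgroup W) [hG : G.FiniteIndex] : HypGroup G := by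
  classical
  set d := wordDist (T : Set W) with hdef
  have hd : PathMetric d := pathMetric_wordDist hT
  have hthin := thin_of_fourPt hd hδ
  -- every element is close to `G`
  obtain ⟨D, hD⟩ : ∃ D : ℕ, ∀ w : W, ∃ g : G, d w g ≤ D := by
    have hfin : Finite (W ⧸ G) := inferInstance
    obtain ⟨D, hD⟩ := (Set.finite_range (fun c : W ⧸ G => d 1 c.out)).bddAbove
    refine ⟨D, fun w => ?_⟩
    set r := ((w⁻¹ : W) : W ⧸ G).out with hr
    have h1 : (r : W ⧸ G) = ((w⁻¹ : W) : W ⧸ G) := by rw [hr]; exact Quotient.out_eq' _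
    have h2 : r⁻¹ * w⁻¹ ∈ G := QuotientGroup.eq.1 h1
    have h3 : w * r ∈ G := by
      have := G.inv_mem h2
      simpa using this
    refine ⟨⟨w * r, h3⟩, ?_⟩
    have h4 : d w (w * r) = d 1 r := by
      have := wordDist_mul_left (S := (T : Set W)) w 1 r
      rw [mul_one] at this
      exact this
    simp only
    rw [h4]
    exact hD ⟨_, rfl⟩
  -- the generating set
  have hball : {g : G | d 1 (g : W) ≤ 2 * D + 1}.Finite :=
    (finite_ball T.finite_toSet hT (2 * D + 1)).preimage Subtype.val_injective.injOn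
  set S : Finset G := hball.toFinset with hSdef
  have hSmem : ∀ g : G, g ∈ S ↔ d 1 (g : W) ≤ 2 * D + 1 := by
    intro g; rw [hSdef, Set.Finite.mem_toFinset]; rfl
  have hSinv : ∀ g : G, g ∈ S → g⁻¹ ∈ S := by
    intro g hg
    rw [hSmem] at hg ⊢
    have h1 := wordDist_mul_left (S := (T : Set W)) (g : W) 1 (g : W)⁻¹
    rw [mul_one, mul_inv_cancel] at h1
    have h2 := hd.symm 1 (g : W)
    rw [← hdef] at h1
    push_cast
    omega
  -- chains along geodesics
  have hchain : ∀ x y : G, ∃ c : ℕ → G, c 0 = x ∧ c (d x y) = y ∧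
      (∀ i, i ≤ d x y → ∃ w : W, d x w + d w y = d x y ∧ d w (c i) ≤ D) ∧
      ∀ i, i < d x y → d (c i) (c (i + 1)) ≤ 2 * D + 1 := by
    intro x y
    obtain ⟨γ, h0, hN, hγ⟩ := hd.geod (x : W) (y : W)
    choose g hg using fun i => hD (γ i)
    set c : ℕ → G := fun i => if i = 0 then x else if i = d x y then y else g i with hc
    have hcc : ∀ i, i ≤ d x y → d (γ i) (c i) ≤ D := by
      intro i hi
      by_cases hi0 : i = 0
      · simp only [hc, hi0, if_true, h0]
        rw [hd.self]
        exact Nat.zero_le _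
      · by_cases hiN : i = d x y
        · simp only [hc, hiN, if_true, hN]
          rw [if_neg (by omega), hd.self]
          exact Nat.zero_le _
        · simp only [hc, if_neg hi0, if_neg hiN]
          exact hg i
    refine ⟨c, by simp [hc], ?_, ?_, ?_⟩
    · by_cases h : d x y = 0
      · have : (x : W) = y := eq_of_wordDist_zero hT h
        simp only [hc, h, if_true]
        exact Subtype.ext this
      · simp [hc, h]
    · intro i hi
      refine ⟨γ i, ?_, hcc i hi⟩
      have h1 := hγ 0 i (Nat.zero_le _) hi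
      have h2 := hγ i (d x y) hi le_rfl
      rw [h0] at h1
      rw [hN] at h2
      omega
    · intro i hi
      have h1 := hcc i (by omega)
      have h2 := hcc (i + 1) (by omega)
      have h3 := hγ i (i + 1) (by omega) (by omega)
      have h4 := hd.tri (c i) (γ i) (c (i + 1))
      have h5 := hd.tri (γ i) (γ (i + 1)) (c (i + 1))
      have h6 := hd.symm (c i) (γ i)
      omega
  have hstep : ∀ x y : G, d x y ≤ 2 * D + 1 → x⁻¹ * y ∈ S := by
    intro x y hxy
    rw [hSmem]
    have h1 := wordDist_mul_left (S := (T : Set W)) (x : W) 1 ((x : W)⁻¹ * y)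
    rw [mul_one, mul_inv_cancel_left] at h1
    push_cast
    rw [← hdef] at h1
    omega
  have hS : Subgroup.closure (S : Set G) = ⊤ := by
    rw [eq_top_iff]
    intro y _
    obtain ⟨c, h0, hN, _, hc⟩ := hchain 1 y
    have : ∀ i, i ≤ d (1 : G) y → c i ∈ Subgroup.closure (S : Set G) := by
      intro i
      induction i with
      | zero => intro _; rw [h0]; exact Subgroup.one_mem _
      | succ i ih =>
        intro hi
        have h1 := Subgroup.subset_closure (hstep _ _ (hc i (by omega)))
        have h2 := Subgroup.mul_mem _ (ih (by omega)) h1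
        simpa using h2
    have h1 := this _ le_rfl
    rwa [hN] at h1
  set e := wordDist (S : Set G) with hedef
  have he : PathMetric e := pathMetric_wordDist hS
  have hone : ∀ x y : G, d x y ≤ 2 * D + 1 → e x y ≤ 1 := by
    intro x y hxy
    have := wordDist_le (S := (S : Set G)) (g := x) (h := y) (l := [x⁻¹ * y]) (by
      intro s hs
      rw [List.mem_singleton] at hs
      rw [hs]
      exact Or.inl (hstep x y hxy)) (by simp)
    simpa using this
  have hed : ∀ x y : G, e x y ≤ d x y := by
    intro x y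
    obtain ⟨c, h0, hN, _, hc⟩ := hchain x y
    have : ∀ i, i ≤ d x y → e x (c i) ≤ i := by
      intro i
      induction i with
      | zero => intro _; rw [h0, he.self]
      | succ i ih =>
        intro hi
        have h1 := hone _ _ (hc i (by omega))
        have h2 := ih (by omega)
        have h3 := he.tri x (c i) (c (i + 1))
        omega
    have h1 := this _ le_rfl
    rwa [hN] at h1
  have hguess : Guess e (fun x y => {g : G | ∃ w : W, d x w + d w y = d x y ∧ d w g ≤ D})
      (3 * D + 1 + 4 * δ) := by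
    refine ⟨?_, ?_, ?_⟩
    · rintro x y hxy p ⟨w, hw, hwp⟩
      have h1 : d x y ≤ 2 * D + 1 := by
        rcases Nat.lt_or_ge (e x y) 1 with h | h
        · have : x = y := eq_of_wordDist_zero hS (by omega : e x y = 0)
          rw [this, hd.self]
          exact Nat.zero_le _
        · have h2 : e x y = 1 := le_antisymm hxy h
          have h3 : x⁻¹ * y ∈ S := by
            rcases mem_of_wordDist_one hS h2 with h3 | h3
            · exact h3
            · have := hSinv _ h3
              rwa [inv_inv] at this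
          rw [hSmem] at h3
          have h4 := wordDist_mul_left (S := (T : Set W)) (x : W) 1 ((x : W)⁻¹ * y)
          rw [mul_one, mul_inv_cancel_left] at h4
          push_cast at h3
          rw [← hdef] at h4
          omega
      have h2 := hed p x
      have h3 := hd.tri p w x
      have h4 := hd.symm (p : W) w
      have h5 := hd.symm w (x : W)
      omega
    · rintro x y z p ⟨w, hw, hwp⟩
      obtain ⟨v, hv, hwv⟩ := hthin x y z w hw
      obtain ⟨q, hq⟩ := hD v
      refine ⟨q, ?_, ?_⟩
      · rcases hv with hv | hv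
        · exact Or.inl ⟨v, hv, hq⟩
        · exact Or.inr ⟨v, hv, hq⟩
      · have h1 := hed p q
        have h2 := hd.tri p w q
        have h3 := hd.tri w v q
        have h4 := hd.symm (p : W) w
        omega
    · intro x y
      obtain ⟨c, h0, hN, hc1, hc2⟩ := hchain x y
      exact ⟨d x y, c, h0, hN, hc1, fun i hi => hone _ _ (hc2 i hi)⟩
  obtain ⟨δ', hδ'⟩ := thin_of_guess he hguess
  exact ⟨S, e, 3 * δ' + 1, hS, fun g h => rfl, fourPt_of_thin he hδ'⟩

end Pool.Agent.HypFI
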