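import Mathlib

/-!
# Discrete hyperbolic spaces: guessing geodesics implies the four-point inequality

`d : X → X → ℕ` is a discrete path metric.  If every pair of points `x, y` comes with a coarsely
connected set `L x y` such that triangles of such sets are uniformly thin, then `d` satisfies the
four-point inequality (Bowditch, Masur-Schleimer).
-/

set_option autoImplicit false

namespace Pool.Agent.HypFI

/-- a metric with values in `ℕ` in which all pairs of points are joined by geodesics -/
structure PathMetric {X : Type*} (d : X → X → ℕ) : Prop where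
  self : ∀ x, d x x = 0
  symm : ∀ x y, d x y = d y x
  tri : ∀ x y z, d x z ≤ d x y + d y z
  geod : ∀ x y, ∃ γ : ℕ → X, γ 0 = x ∧ γ (d x y) = y ∧
    ∀ i j, i ≤ j → j ≤ d x y → d (γ i) (γ j) = j - i

/-- `γ` is a geodesic on `{0, …, n}` -/
def IsGeod {X : Type*} (d : X → X → ℕ) (γ : ℕ → X) (n : ℕ) : Prop :=
  ∀ i j, i ≤ j → j ≤ n → d (γ i) (γ j) = j - i

/-- the four-point inequality -/
def FourPt {X : Type*} (d : X → X → ℕ) (δ : ℕ) : Prop :=
  ∀ x y z w : X,
    min ((d x w : ℤ) + (d y w : ℤ) - (d x y : ℤ))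
        ((d y w : ℤ) + (d z w : ℤ) - (d y z : ℤ)) - 2 * (δ : ℤ)
      ≤ (d x w : ℤ) + (d z w : ℤ) - (d x z : ℤ)

/-- intervals are thin -/
def Thin {X : Type*} (d : X → X → ℕ) (δ : ℕ) : Prop :=
  ∀ x y z u : X, d x u + d u y = d x y →
    ∃ v, (d x v + d v z = d x z ∨ d z v + d v y = d z y) ∧ d u v ≤ δ

section

variable {X : Type*} {d : X → X → ℕ}

/-- a point where a predicate stops being true -/
theorem exists_switch {P : ℕ → Prop} {n : ℕ} (h0 : P 0) (hn : ¬ P n) :
    ∃ i, i < n ∧ P i ∧ ¬ P (i + 1) := by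
  by_contra hcon
  push Not at hcon
  have : ∀ i, i ≤ n → P i := by
    intro i
    induction i with
    | zero => intro _; exact h0
    | succ i ih =>
      intro hi
      exact hcon i (by omega) (ih (by omega))
  exact hn (this n le_rfl)

/-- thin intervals give the four-point inequality -/
theorem fourPt_of_thin (hd : PathMetric d) {δ : ℕ} (ht : Thin d δ) : FourPt d (3 * δ + 1) := by
  have key : ∀ x y w : X, ∃ u, d x u + d u y = d x y ∧
      2 * d w u + d x y ≤ d x w + d w y + 4 * δ + 2 := by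
    intro x y w
    obtain ⟨γ, h0, hN, hγ⟩ := hd.geod x y
    have hint : ∀ i, i ≤ d x y → d x (γ i) + d (γ i) y = d x y := by
      intro i hi
      have h1 := hγ 0 i (Nat.zero_le _) hi
      have h2 := hγ i (d x y) hi le_rfl
      rw [h0] at h1
      rw [hN] at h2
      omega
    by_cases hP : ∃ p, d x p + d p w = d x w ∧ d (γ (d x y)) p ≤ δ
    · obtain ⟨p, hp1, hp2⟩ := hP
      rw [hN] at hp2
      refine ⟨y, by rw [hd.self]; rfl, ?_⟩
      have h1 := hd.tri x p y
      have h2 := hd.tri w p y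
      have h3 := hd.symm y p
      have h4 := hd.symm w p
      omega
    · obtain ⟨i, hi, hPi, hPi'⟩ := exists_switch
        (P := fun i => ∃ p, d x p + d p w = d x w ∧ d (γ i) p ≤ δ) (n := d x y)
        ⟨x, by rw [hd.self, zero_add], by rw [h0, hd.self]; exact Nat.zero_le _⟩ hP
      obtain ⟨p, hp1, hp2⟩ := hPi
      obtain ⟨q, hq1, hq2⟩ := ht x y w (γ (i + 1)) (hint (i + 1) (by omega))
      rcases hq1 with hq1 | hq1
      · exact absurd ⟨q, hq1, hq2⟩ hPi'
      · refine ⟨γ i, hint i (by omega), ?_⟩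
        have h1 := hint i (by omega)
        have h2 := hγ i (i + 1) (by omega) (by omega)
        have h3 := hd.tri x p (γ i)
        have h4 := hd.tri w p (γ i)
        have h5 := hd.tri w q (γ i)
        have h6 := hd.tri (γ i) q y
        have h7 := hd.tri (γ i) (γ (i + 1)) q
        have h8 := hd.symm (γ i) p
        have h9 := hd.symm w p
        have h10 := hd.symm (γ i) q
        have h11 := hd.symm (γ (i + 1)) q
        omega
  intro x y z w
  obtain ⟨u, hu1, hu2⟩ := key x z w
  obtain ⟨v, hv1, hv2⟩ := ht x z y u hu1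
  have h1 := hd.tri w u v
  have h2 := hd.symm w x
  have h3 := hd.symm w y
  have h4 := hd.symm w z
  have h5 := hd.symm v w
  have hzy := hd.symm z y
  rcases hv1 with hv1 | hv1
  · have h6 := hd.tri x v w
    have h7 := hd.tri y v w
    have h8 := hd.symm y v
    have : (d x w : ℤ) + d y w - d x y ≤ (d x w : ℤ) + d z w - d x z + 2 * (3 * δ + 1 : ℕ) := by
      push_cast
      omega
    exact le_trans (sub_le_sub_right (min_le_left _ _) _) (by linarith)
  · have h6 := hd.tri y v w
    have h7 := hd.tri z v w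
    have h8 := hd.symm y v
    have h9 := hd.symm z v
    have : (d y w : ℤ) + d z w - d y z ≤ (d x w : ℤ) + d z w - d x z + 2 * (3 * δ + 1 : ℕ) := by
      push_cast
      omega
    exact le_trans (sub_le_sub_right (min_le_right _ _) _) (by linarith)

/-- the four-point inequality gives thin intervals -/
theorem thin_of_fourPt (hd : PathMetric d) {δ : ℕ} (hf : FourPt d δ) : Thin d (4 * δ) := by
  -- near points of an interval
  have key : ∀ x z w : X, d x w + d w z ≤ d x z + 2 * δ →
      ∃ v, d x v + d v z = d x z ∧ d w v ≤ 4 * δ := by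
    intro x z w h
    by_cases hs : d x w ≤ d x z
    · obtain ⟨γ, h0, hN, hγ⟩ := hd.geod x z
      have h1 := hγ 0 (d x w) (Nat.zero_le _) hs
      have h2 := hγ (d x w) (d x z) hs le_rfl
      rw [h0] at h1
      rw [hN] at h2
      refine ⟨γ (d x w), by omega, ?_⟩
      -- four points `w, z, γ`, base point `x`
      have h3 := hf w z (γ (d x w)) x
      have h4 := hd.symm w x
      have h5 := hd.symm z x
      have h6 := hd.symm (γ (d x w)) x
      have h7 := hd.symm z (γ (d x w))
      rw [h4, h5, h6, h7] at h3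
      rcases min_cases ((d x w : ℤ) + (d x z : ℤ) - (d w z : ℤ))
        ((d x z : ℤ) + (d x (γ (d x w)) : ℤ) - (d (γ (d x w)) z : ℤ)) with ⟨hm, _⟩ | ⟨hm, _⟩
      · rw [hm] at h3
        omega
      · rw [hm] at h3
        omega
    · exact ⟨z, by rw [hd.self]; rfl, by omega⟩
  intro x y z u hu
  have h1 := hf x z y u
  have h2 := hd.symm y u
  have h3 := hd.symm z u
  have h4 := hd.symm x u
  rw [h2] at h1
  rcases min_cases ((d x u : ℤ) + (d z u : ℤ) - (d x z : ℤ))
    ((d z u : ℤ) + (d u y : ℤ) - (d z y : ℤ)) with ⟨hm, _⟩ | ⟨hm, _⟩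
  · rw [hm] at h1
    obtain ⟨v, hv1, hv2⟩ := key x z u (by omega)
    exact ⟨v, Or.inl hv1, hv2⟩
  · rw [hm] at h1
    obtain ⟨v, hv1, hv2⟩ := key z y u (by omega)
    exact ⟨v, Or.inr hv1, hv2⟩

/-- a family of coarsely connected, uniformly thin sets -/
structure Guess (d : X → X → ℕ) (L : X → X → Set X) (h : ℕ) : Prop where
  near : ∀ x y, d x y ≤ 1 → ∀ p ∈ L x y, d p x ≤ h
  thin : ∀ x y z, ∀ p ∈ L x y, ∃ q, (q ∈ L x z ∨ q ∈ L z y) ∧ d p q ≤ h
  conn : ∀ x y, ∃ (n : ℕ) (c : ℕ → X), c 0 = x ∧ c n = y ∧ (∀ i, i ≤ n → c i ∈ L x y) ∧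
    ∀ i, i < n → d (c i) (c (i + 1)) ≤ 1

/-- the sets are logarithmically close to every path -/
theorem Guess.path {L : X → X → Set X} {h : ℕ} (hd : PathMetric d) (hL : Guess d L h) (k : ℕ) :
    ∀ (n : ℕ) (α : ℕ → X), n ≤ 2 ^ k → (∀ i, i < n → d (α i) (α (i + 1)) ≤ 1) →
      ∀ p ∈ L (α 0) (α n), ∃ i, i ≤ n ∧ d p (α i) ≤ h * (k + 1) := by
  induction k with
  | zero =>
    intro n α hn hα p hp
    refine ⟨0, Nat.zero_le _, ?_⟩
    have h1 : d (α 0) (α n) ≤ 1 := by
      rcases Nat.eq_zero_or_pos n with rfl | hpos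
      · rw [hd.self]; exact Nat.zero_le _
      · have : n = 1 := by simp at hn; omega
        subst this
        exact hα 0 (by omega)
    simpa using hL.near _ _ h1 p hp
  | succ k ih =>
    intro n α hn hα p hp
    obtain ⟨q, hq, hpq⟩ := hL.thin _ _ (α (n / 2)) p hp
    rw [pow_succ] at hn
    rcases hq with hq | hq
    · obtain ⟨i, hi, hqi⟩ := ih (n / 2) α (by omega) (fun i hi => hα i (by omega)) q hq
      refine ⟨i, by omega, ?_⟩
      have := hd.tri p q (α i)
      calc d p (α i) ≤ h + h * (k + 1) := by omega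
        _ = h * (k + 1 + 1) := by ring
    · obtain ⟨i, hi, hqi⟩ := ih (n - n / 2) (fun i => α (n / 2 + i)) (by omega)
        (fun i hi => hα (n / 2 + i) (by omega)) q (by
          have : n / 2 + (n - n / 2) = n := by omega
          simpa [this] using hq)
      refine ⟨n / 2 + i, by omega, ?_⟩
      have := hd.tri p q (α (n / 2 + i))
      calc d p (α (n / 2 + i)) ≤ h + h * (k + 1) := by
            omega
        _ = h * (k + 1 + 1) := by ring

theorem sq_le_two_pow (k : ℕ) : (k + 12) ^ 2 ≤ 2 ^ (k + 8) := by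
  induction k with
  | zero => norm_num
  | succ k ih =>
    have h1 : (k + 1 + 12) ^ 2 = k ^ 2 + 26 * k + 169 := by ring
    have h2 : 2 * (k + 12) ^ 2 = 2 * k ^ 2 + 48 * k + 288 := by ring
    calc (k + 1 + 12) ^ 2 ≤ 2 * (k + 12) ^ 2 := by
          rw [h1, h2]
          have := Nat.zero_le (k ^ 2)
          linarith
      _ ≤ 2 * 2 ^ (k + 8) := by omega
      _ = 2 ^ (k + 1 + 8) := by ring

/-- the solution of the logarithmic inequality -/
theorem exists_log_bound (h : ℕ) : ∃ t₀ : ℕ, ∀ t, t ≤ h * (Nat.clog 2 (6 * t) + 3) → t ≤ t₀ := by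
  refine ⟨h * (6 * h + 12), fun t ht => ?_⟩
  by_contra hcon
  push Not at hcon
  set k := Nat.clog 2 (6 * t) with hk
  have h1 : h * (6 * h + 12) < h * (k + 3) := lt_of_lt_of_le hcon ht
  have h2 : 6 * h + 12 < k + 3 := by
    by_contra h3
    push Not at h3
    exact absurd (Nat.mul_le_mul_left h h3) (by omega)
  have h3 : 2 ^ (k - 1) < 6 * t := by
    have h4 : 1 < 6 * t := by
      have : 0 < t := by omega
      omega
    have h5 := Nat.pow_pred_clog_lt_self (b := 2) (by norm_num) h4
    rwa [Nat.pred_eq_sub_one, ← hk] at h5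
  have h4 : 6 * t ≤ (k + 3) ^ 2 := by
    calc 6 * t ≤ 6 * (h * (k + 3)) := by omega
      _ = (6 * h) * (k + 3) := by ring
      _ ≤ (k + 3) * (k + 3) := Nat.mul_le_mul_right _ (by omega)
      _ = (k + 3) ^ 2 := by ring
  have h5 := sq_le_two_pow (k - 9)
  have h6 : k - 9 + 12 = k + 3 := by omega
  have h7 : k - 9 + 8 = k - 1 := by omega
  rw [h6, h7] at h5
  omega

/-- the sets are uniformly close to geodesics -/
theorem Guess.close {L : X → X → Set X} {h : ℕ} (hd : PathMetric d) (hL : Guess d L h) :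
    ∃ t₀ : ℕ, ∀ (n : ℕ) (γ : ℕ → X), IsGeod d γ n → ∀ p ∈ L (γ 0) (γ n),
      ∃ i, i ≤ n ∧ d p (γ i) ≤ t₀ := by
  obtain ⟨t₁, ht₁⟩ := exists_log_bound h
  refine ⟨max t₁ (3 * h), ?_⟩
  -- the maximum of the distances for geodesics of length at most `m`
  have main : ∀ m : ℕ, ∀ (n : ℕ) (γ : ℕ → X), n ≤ m → IsGeod d γ n → ∀ p ∈ L (γ 0) (γ n),
      ∃ i, i ≤ n ∧ d p (γ i) ≤ max t₁ (3 * h) := by
    intro m
    classical
    set A : ℕ → Prop := fun t => ∃ (n : ℕ) (γ : ℕ → X), n ≤ m ∧ IsGeod d γ n ∧
      ∃ p ∈ L (γ 0) (γ n), ∀ i, i ≤ n → t ≤ d p (γ i) with hA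
    have hgeod : ∀ (n : ℕ) (γ : ℕ → X), IsGeod d γ n → ∀ i, i < n → d (γ i) (γ (i + 1)) ≤ 1 := by
      intro n γ hγ i hi
      have := hγ i (i + 1) (by omega) (by omega)
      omega
    have hbound : ∀ t, A t → t ≤ h * (m + 1) := by
      rintro t ⟨n, γ, hn, hγ, p, hp, hpt⟩
      obtain ⟨i, hi, hi2⟩ := hL.path hd m n γ (hn.trans (Nat.lt_two_pow_self).le)
        (hgeod n γ hγ) p hp
      exact (hpt i hi).trans hi2
    set t := Nat.findGreatest A (h * (m + 1)) with ht
    have hmax : ∀ s, A s → s ≤ t := fun s hs => Nat.le_findGreatest (hbound s hs) hs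
    have hall : ∀ (n : ℕ) (γ : ℕ → X), n ≤ m → IsGeod d γ n → ∀ p ∈ L (γ 0) (γ n),
        ∃ i, i ≤ n ∧ d p (γ i) ≤ t := by
      intro n γ hn hγ p hp
      by_contra hcon
      push Not at hcon
      have := hmax (t + 1) ⟨n, γ, hn, hγ, p, hp, fun i hi => hcon i hi⟩
      omega
    suffices ht0 : t ≤ max t₁ (3 * h) by
      intro n γ hn hγ p hp
      obtain ⟨i, hi, hi2⟩ := hall n γ hn hγ p hp
      exact ⟨i, hi, hi2.trans ht0⟩
    rcases Nat.eq_zero_or_pos t with h0 | hpos
    · rw [h0]; exact Nat.zero_le _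
    have hAt : A t := by
      have := Nat.findGreatest_of_ne_zero (P := A) (n := h * (m + 1)) ht.symm (by omega)
      exact this
    obtain ⟨n, γ, hn, hγ, p, hp, hpt⟩ := hAt
    obtain ⟨i₀, hi₀, hi₀'⟩ := hall n γ hn hγ p hp
    have hpi : d p (γ i₀) = t := le_antisymm hi₀' (hpt i₀ hi₀)
    -- the left end
    set a := i₀ - 3 * t with ha
    obtain ⟨q, hq, hpq⟩ := hL.thin _ _ (γ a) p hp
    rcases hq with hq | hq
    · -- `q` is on the left side
      by_cases ha0 : a = 0
      · rw [ha0] at hq
        have h1 := hL.near _ _ (by rw [hd.self]; exact Nat.zero_le _) q hq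
        have h2 := hd.tri p q (γ 0)
        have h3 := hpt 0 (Nat.zero_le _)
        exact le_trans (by omega) (le_max_right t₁ (3 * h))
      · obtain ⟨j, hj, hj2⟩ := hall a γ (by omega)
          (fun i j hij hj => hγ i j hij (by omega)) q hq
        have h1 := hγ j i₀ (by omega) hi₀
        have h2 := hd.tri (γ j) q (γ i₀)
        have h3 := hd.tri q p (γ i₀)
        have h4 := hd.symm (γ j) q
        have h5 := hd.symm q p
        exact le_trans (by omega) (le_max_right t₁ (3 * h))
    · set b := min (i₀ + 3 * t) n with hb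
      obtain ⟨r, hr, hqr⟩ := hL.thin _ _ (γ b) q hq
      rcases hr with hr | hr
      · -- `r` is in the middle
        have hab : a ≤ b := by omega
        obtain ⟨i, hi, hi2⟩ := hL.path hd (Nat.clog 2 (6 * t)) (b - a) (fun i => γ (a + i))
          (le_trans (by omega) (Nat.le_pow_clog (by norm_num) (6 * t)))
          (fun i hi => hgeod n γ hγ (a + i) (by omega)) r
          (by
            have : a + (b - a) = b := by omega
            simpa [this] using hr)
        have h1 := hpt (a + i) (by omega)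
        have h2 := hd.tri p r (γ (a + i))
        have h3 := hd.tri p q r
        refine le_trans (ht₁ t ?_) (le_max_left _ _)
        calc t ≤ 2 * h + h * (Nat.clog 2 (6 * t) + 1) := by
              omega
          _ = h * (Nat.clog 2 (6 * t) + 3) := by ring
      · -- `r` is on the right side
        by_cases hbn : b = n
        · rw [hbn] at hr
          have h1 := hL.near _ _ (by rw [hd.self]; exact Nat.zero_le _) r hr
          have h2 := hd.tri p r (γ n)
          have h3 := hpt n le_rfl
          have h4 := hd.tri p q r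
          exact le_trans (by omega) (le_max_right t₁ (3 * h))
        · have hb' : b = i₀ + 3 * t := by omega
          have hbn' : b < n := by omega
          obtain ⟨j, hj, hj2⟩ := hall (n - b) (fun i => γ (b + i)) (by omega)
            (fun i j hij hj => by
              have := hγ (b + i) (b + j) (by omega) (by omega)
              simp only [this]
              omega) r (by
                have : b + (n - b) = n := by omega
                simpa [this] using hr)
          have h1 := hγ i₀ (b + j) (by omega) (by omega)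
          have h2 := hd.tri (γ i₀) p (γ (b + j))
          have h3 := hd.tri p q (γ (b + j))
          have h4 := hd.tri q r (γ (b + j))
          have h5 := hd.symm (γ i₀) p
          exact le_trans (by omega) (le_max_right t₁ (3 * h))
  intro n γ hγ p hp
  exact main n n γ le_rfl hγ p hp

/-- a geodesic through a point of the interval -/
theorem exists_geod_through (hd : PathMetric d) (x y u : X) (hu : d x u + d u y = d x y) :
    ∃ γ : ℕ → X, γ 0 = x ∧ γ (d x y) = y ∧ γ (d x u) = u ∧ IsGeod d γ (d x y) := by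
  obtain ⟨γ₁, h10, h11, hγ₁⟩ := hd.geod x u
  obtain ⟨γ₂, h20, h21, hγ₂⟩ := hd.geod u y
  set γ : ℕ → X := fun i => if i ≤ d x u then γ₁ i else γ₂ (i - d x u) with hγ
  have hγle : ∀ i, i ≤ d x u → γ i = γ₁ i := fun i hi => by simp [hγ, hi]
  have hγge : ∀ i, d x u ≤ i → γ i = γ₂ (i - d x u) := by
    intro i hi
    rcases hi.eq_or_lt with h | h
    · rw [hγle i h.symm.le, ← h, Nat.sub_self, h20, h11]
    · simp [hγ, not_le.2 h]
  have e0 : γ 0 = x := by rw [hγle 0 (Nat.zero_le _), h10]
  have eN : γ (d x y) = y := by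
    rw [hγge _ (by omega)]
    have : d x y - d x u = d u y := by omega
    rw [this, h21]
  refine ⟨γ, e0, eN, by rw [hγle _ le_rfl, h11], ?_⟩
  have hx : ∀ i, i ≤ d x y → d x (γ i) = i ∧ d (γ i) y = d x y - i := by
    intro i hi
    by_cases h : i ≤ d x u
    · have h1 := hγ₁ 0 i (Nat.zero_le _) h
      have h2 := hγ₁ i (d x u) h le_rfl
      rw [h10] at h1
      rw [h11] at h2
      rw [hγle i h]
      have h3 := hd.tri (γ₁ i) u y
      have h4 := hd.tri x (γ₁ i) y
      omega
    · have h1 := hγ₂ 0 (i - d x u) (Nat.zero_le _) (by omega)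
      have h2 := hγ₂ (i - d x u) (d u y) (by omega) le_rfl
      rw [h20] at h1
      rw [h21] at h2
      rw [hγge i (by omega)]
      have h3 := hd.tri x u (γ₂ (i - d x u))
      have h4 := hd.tri x (γ₂ (i - d x u)) y
      omega
  intro i j hij hj
  have h1 := (hx i (by omega)).1
  have h2 := (hx j hj).1
  have hub : d (γ i) (γ j) ≤ j - i := by
    by_cases hjl : j ≤ d x u
    · rw [hγle i (by omega), hγle j hjl]
      exact (hγ₁ i j hij hjl).le
    · by_cases hil : i ≤ d x u
      · rw [hγle i hil, hγge j (by omega)]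
        have h3 := hγ₁ i (d x u) hil le_rfl
        have h4 := hγ₂ 0 (j - d x u) (Nat.zero_le _) (by omega)
        rw [h11] at h3
        rw [h20] at h4
        have h5 := hd.tri (γ₁ i) u (γ₂ (j - d x u))
        omega
      · rw [hγge i (by omega), hγge j (by omega)]
        have h3 := hγ₂ (i - d x u) (j - d x u) (by omega) (by omega)
        omega
  have hlb := hd.tri x (γ i) (γ j)
  omega

/-- guessing geodesics -/
theorem thin_of_guess (hd : PathMetric d) {L : X → X → Set X} {h : ℕ} (hL : Guess d L h) :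
    ∃ δ, Thin d δ := by
  obtain ⟨t, ht⟩ := hL.close hd
  refine ⟨4 * t + 1 + h, ?_⟩
  -- points of geodesics are close to the sets
  have hclose : ∀ (x y u : X), d x u + d u y = d x y → ∃ w ∈ L x y, d u w ≤ 3 * t + 1 := by
    intro x y u hu
    obtain ⟨γ, h0, hN, hγu, hγ⟩ := exists_geod_through hd x y u hu
    obtain ⟨m, c, hc0, hcm, hcL, hc1⟩ := hL.conn x y
    set a := d x u with ha
    have haN : a ≤ d x y := by omega
    by_cases hP : ∃ i', i' ≤ a ∧ d (c m) (γ i') ≤ t
    · obtain ⟨i', hi', hi2⟩ := hP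
      rw [hcm] at hi2
      refine ⟨y, ?_, ?_⟩
      · have := hcL m le_rfl
        rwa [hcm] at this
      · have h1 := hγ i' (d x y) (by omega) le_rfl
        rw [hN] at h1
        have h2 := hd.symm y (γ i')
        omega
    · obtain ⟨j, hj, hPj, hPj'⟩ := exists_switch
        (P := fun j => ∃ i', i' ≤ a ∧ d (c j) (γ i') ≤ t) (n := m)
        ⟨0, Nat.zero_le _, by rw [hc0, h0, hd.self]; exact Nat.zero_le _⟩ hP
      obtain ⟨i', hi', hi2⟩ := hPj
      obtain ⟨k, hk, hk2⟩ := ht (d x y) γ hγ (c (j + 1)) (by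
        rw [h0, hN]
        exact hcL (j + 1) (by omega))
      have hka : a < k := by
        by_contra hcon
        push Not at hcon
        exact hPj' ⟨k, hcon, hk2⟩
      refine ⟨c j, hcL j (by omega), ?_⟩
      have h1 := hγ i' k (by omega) hk
      have h2 := hd.tri (γ i') (c j) (γ k)
      have h3 := hd.tri (c j) (c (j + 1)) (γ k)
      have h4 := hd.symm (γ i') (c j)
      have h5 := hc1 j hj
      have h6 := hγ i' a hi' haN
      rw [hγu] at h6
      have h7 := hd.tri u (γ i') (c j)
      have h8 := hd.symm u (γ i')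
      omega
  intro x y z u hu
  obtain ⟨w, hw, huw⟩ := hclose x y u hu
  obtain ⟨q, hq, hwq⟩ := hL.thin x y z w hw
  have hfin : ∀ x' y' : X, q ∈ L x' y' → ∃ v, d x' v + d v y' = d x' y' ∧ d q v ≤ t := by
    intro x' y' hq'
    obtain ⟨γ, h0, hN, hγ⟩ := hd.geod x' y'
    obtain ⟨i, hi, hi2⟩ := ht (d x' y') γ hγ q (by rw [h0, hN]; exact hq')
    refine ⟨γ i, ?_, hi2⟩
    have h1 := hγ 0 i (Nat.zero_le _) hi
    have h2 := hγ i (d x' y') hi le_rfl
    rw [h0] at h1
    rw [hN] at h2
    omega
  rcases hq with hq | hq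
  · obtain ⟨v, hv, hqv⟩ := hfin x z hq
    refine ⟨v, Or.inl hv, ?_⟩
    have h1 := hd.tri u w v
    have h2 := hd.tri w q v
    omega
  · obtain ⟨v, hv, hqv⟩ := hfin z y hq
    refine ⟨v, Or.inr hv, ?_⟩
    have h1 := hd.tri u w v
    have h2 := hd.tri w q v
    omega

end

end Pool.Agent.HypFI
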